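import Pool.Agent.L0h43.SQ.Prd
import Pool.Agent.L0h41.QN.B

set_option autoImplicit false

/-!
# The forms `n² + j²`: the first two moments
-/

namespace Pool.Agent.L0h43.SQ

open Finset Filter
open Pool.Agent.W123.RP Pool.Agent.H373R2.T7
open Pool.Agent.L0h41.LW Pool.Agent.L0h41.QN

lemma amgm4 (a b c d : ℝ) (ha : 0 ≤ a) (hb : 0 ≤ b) (hc : 0 ≤ c) (hd : 0 ≤ d) :
    a * b * (c * d) ≤ (a ^ 4 + b ^ 4 + c ^ 4 + d ^ 4) / 4 := by
  have h1 : a * b * (c * d) ≤ ((a * b) ^ 2 + (c * d) ^ 2) / 2 := by nlinarith [sq_nonneg (a * b - c * d)]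
  have h2 : (a * b) ^ 2 ≤ (a ^ 4 + b ^ 4) / 2 := by nlinarith [sq_nonneg (a ^ 2 - b ^ 2)]
  have h3 : (c * d) ^ 2 ≤ (c ^ 4 + d ^ 4) / 2 := by nlinarith [sq_nonneg (c ^ 2 - d ^ 2)]
  linarith

lemma sum_inj (A B : Finset ℕ) (e : ℕ → ℕ) (g : ℕ → ℝ) (hg : ∀ n, 0 ≤ g n) (he : ∀ a ∈ A, e a ∈ B)
    (hi : ∀ a ∈ A, ∀ b ∈ A, e a = e b → a = b) : ∑ a ∈ A, g (e a) ≤ ∑ b ∈ B, g b := by
  classical
  rw [← sum_image (f := g) (g := e) (s := A) (by
    intro a ha b hb hab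
    exact hi a ha b hb hab)]
  apply sum_le_sum_of_subset_of_nonneg
  · intro x hx
    rw [mem_image] at hx
    obtain ⟨a, ha, rfl⟩ := hx
    exact he a ha
  · intro x _ _
    exact hg x

/-- the mean of the lower bounds -/
lemma sum_inv_low : ∃ c : ℝ, 0 < c ∧ ∀ J : ℕ, c * J ≤ ∑ j ∈ Icc 1 J, (tr j)⁻¹ := by
  obtain ⟨C, hC, hM⟩ := tr_moment 1 le_rfl
  refine ⟨C⁻¹, by positivity, ?_⟩
  intro J
  rcases Nat.eq_zero_or_pos J with h0 | h0
  · rw [h0]
    simp
  have hJ : (0 : ℝ) < J := by exact_mod_cast h0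
  have h1 := hM J
  have h2 : ∀ j ∈ Icc 1 J, (0 : ℝ) < tr j := by
    intro j hj
    exact lt_of_lt_of_le one_pos (tr_one_le j (mem_Icc.1 hj).1)
  -- Cauchy-Schwarz
  have h3 : (∑ j ∈ Icc 1 J, (1 : ℝ)) ^ 2 ≤ (∑ j ∈ Icc 1 J, (tr j)⁻¹) * ∑ j ∈ Icc 1 J, tr j := by
    apply Finset.sum_sq_le_sum_mul_sum_of_sq_eq_mul
    · intro j hj
      exact (inv_pos.2 (h2 j hj)).le
    · intro j hj
      exact (h2 j hj).le
    · intro j hj
      rw [inv_mul_cancel₀ (h2 j hj).ne', one_pow]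
  rw [sum_const, nsmul_eq_mul, mul_one, Nat.card_Icc, Nat.add_sub_cancel] at h3
  have h4 : ∑ j ∈ Icc 1 J, tr j ≤ C * J := by
    refine le_trans (le_of_eq ?_) h1
    apply sum_congr rfl
    intro j _
    rw [pow_one]
  have h5 : 0 ≤ ∑ j ∈ Icc 1 J, (tr j)⁻¹ := sum_nonneg (fun j hj => (inv_pos.2 (h2 j hj)).le)
  have h6 : (J : ℝ) ^ 2 ≤ (∑ j ∈ Icc 1 J, (tr j)⁻¹) * (C * J) := h3.trans (mul_le_mul_of_nonneg_left h4 h5)
  have h7 : (J : ℝ) ≤ (∑ j ∈ Icc 1 J, (tr j)⁻¹) * C := by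
    by_contra hcon
    push Not at hcon
    nlinarith
  rw [inv_mul_le_iff₀ (by linarith)]
  linarith

/-- the sum over the pairs -/
lemma sum_pairs : ∃ C : ℝ, 0 < C ∧ ∀ J : ℕ,
    ∑ j ∈ Icc 1 J, ∑ j' ∈ Icc 1 J, (if j = j' then (0 : ℝ) else
      (tr j * tr j' * (tr ((j - j') + (j' - j)) * tr (j + j'))) ^ 6) ≤ C * J ^ 2 := by
  obtain ⟨C, hC, hM⟩ := tr_moment 24 (by norm_num)
  refine ⟨6 * C, by linarith, ?_⟩
  intro J
  have hJ0 : (0 : ℝ) ≤ J := Nat.cast_nonneg _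
  obtain ⟨g, hg⟩ : ∃ g : ℕ → ℝ, g = fun n => tr n ^ 24 := ⟨_, rfl⟩
  have hg0 : ∀ n, 0 ≤ g n := by
    intro n
    rw [hg]
    exact pow_nonneg (tr_nonneg n) 24
  have hM' : ∀ N : ℕ, ∑ n ∈ Icc 1 N, g n ≤ C * N := by
    intro N
    rw [hg]
    exact hM N
  -- one pair
  have h1 : ∀ j ∈ Icc 1 J, ∀ j' ∈ Icc 1 J, (if j = j' then (0 : ℝ) else
      (tr j * tr j' * (tr ((j - j') + (j' - j)) * tr (j + j'))) ^ 6) ≤
      (g j + g j' + ((if j' < j then g (j - j') else 0) + (if j < j' then g (j' - j) else 0)) + g (j + j')) / 4 := by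
    intro j _ j' _
    have n1 : 0 ≤ (if j' < j then g (j - j') else 0) := by
      split_ifs
      · exact hg0 _
      · exact le_rfl
    have n2 : 0 ≤ (if j < j' then g (j' - j) else 0) := by
      split_ifs
      · exact hg0 _
      · exact le_rfl
    by_cases hj : j = j'
    · rw [if_pos hj]
      have := hg0 j
      have := hg0 j'
      have := hg0 (j + j')
      linarith
    · rw [if_neg hj]
      have h2 := amgm4 (tr j ^ 6) (tr j' ^ 6) (tr ((j - j') + (j' - j)) ^ 6) (tr (j + j') ^ 6)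
        (pow_nonneg (tr_nonneg _) 6) (pow_nonneg (tr_nonneg _) 6) (pow_nonneg (tr_nonneg _) 6)
        (pow_nonneg (tr_nonneg _) 6)
      have h3 : g ((j - j') + (j' - j)) ≤ (if j' < j then g (j - j') else 0) + (if j < j' then g (j' - j) else 0) := by
        rcases lt_or_gt_of_ne hj with h | h
        · rw [if_neg (by omega), if_pos h, zero_add]
          have e : (j - j') + (j' - j) = j' - j := by omega
          rw [e]
        · rw [if_pos h, if_neg (by omega), add_zero]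
          have e : (j - j') + (j' - j) = j - j' := by omega
          rw [e]
      have e1 : ∀ n, (tr n ^ 6) ^ 4 = g n := by
        intro n
        rw [hg, ← pow_mul]
      rw [e1, e1, e1, e1] at h2
      have e2 : (tr j * tr j' * (tr ((j - j') + (j' - j)) * tr (j + j'))) ^ 6 =
          tr j ^ 6 * tr j' ^ 6 * (tr ((j - j') + (j' - j)) ^ 6 * tr (j + j') ^ 6) := by ring
      rw [e2]
      refine h2.trans ?_
      linarith
  have hcard : ((Icc 1 J).card : ℝ) = J := by rw [Nat.card_Icc, Nat.add_sub_cancel]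
  have s1 : ∑ j ∈ Icc 1 J, ∑ _j' ∈ Icc 1 J, g j ≤ C * J ^ 2 := by
    have : ∀ j ∈ Icc 1 J, ∑ _j' ∈ Icc 1 J, g j = J * g j := by
      intro j _
      rw [sum_const, nsmul_eq_mul, hcard]
    rw [sum_congr rfl this, ← mul_sum]
    calc (J : ℝ) * ∑ j ∈ Icc 1 J, g j ≤ J * (C * J) := mul_le_mul_of_nonneg_left (hM' J) hJ0
      _ = C * J ^ 2 := by ring
  have s2 : ∑ _j ∈ Icc 1 J, ∑ j' ∈ Icc 1 J, g j' ≤ C * J ^ 2 := by
    rw [sum_const, nsmul_eq_mul, hcard]
    calc (J : ℝ) * ∑ j ∈ Icc 1 J, g j ≤ J * (C * J) := mul_le_mul_of_nonneg_left (hM' J) hJ0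
      _ = C * J ^ 2 := by ring
  have s3 : ∑ j ∈ Icc 1 J, ∑ j' ∈ Icc 1 J, (if j' < j then g (j - j') else 0) ≤ C * J ^ 2 := by
    have : ∀ j ∈ Icc 1 J, ∑ j' ∈ Icc 1 J, (if j' < j then g (j - j') else 0) ≤ C * J := by
      intro j hj
      rw [← sum_filter]
      refine le_trans (sum_inj _ (Icc 1 J) (fun j' => j - j') g hg0 ?_ ?_) (hM' J)
      · intro a ha
        rw [mem_filter, mem_Icc] at ha
        rw [mem_Icc] at hj ⊢
        show 1 ≤ j - a ∧ j - a ≤ J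
        omega
      · intro a ha b hb hab
        rw [mem_filter, mem_Icc] at ha hb
        have hab' : j - a = j - b := hab
        omega
    refine (sum_le_sum this).trans ?_
    rw [sum_const, nsmul_eq_mul, hcard]
    exact le_of_eq (by ring)
  have s4 : ∑ j ∈ Icc 1 J, ∑ j' ∈ Icc 1 J, (if j < j' then g (j' - j) else 0) ≤ C * J ^ 2 := by
    have : ∀ j ∈ Icc 1 J, ∑ j' ∈ Icc 1 J, (if j < j' then g (j' - j) else 0) ≤ C * J := by
      intro j hj
      rw [← sum_filter]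
      refine le_trans (sum_inj _ (Icc 1 J) (fun j' => j' - j) g hg0 ?_ ?_) (hM' J)
      · intro a ha
        rw [mem_filter, mem_Icc] at ha
        rw [mem_Icc] at hj ⊢
        show 1 ≤ a - j ∧ a - j ≤ J
        omega
      · intro a ha b hb hab
        rw [mem_filter, mem_Icc] at ha hb
        have hab' : a - j = b - j := hab
        omega
    refine (sum_le_sum this).trans ?_
    rw [sum_const, nsmul_eq_mul, hcard]
    exact le_of_eq (by ring)
  have s5 : ∑ j ∈ Icc 1 J, ∑ j' ∈ Icc 1 J, g (j + j') ≤ 2 * (C * J ^ 2) := by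
    have : ∀ j ∈ Icc 1 J, ∑ j' ∈ Icc 1 J, g (j + j') ≤ C * (2 * J) := by
      intro j hj
      refine le_trans (sum_inj _ (Icc 1 (2 * J)) (fun j' => j + j') g hg0 ?_ ?_) ?_
      · intro a ha
        rw [mem_Icc] at ha hj ⊢
        show 1 ≤ j + a ∧ j + a ≤ 2 * J
        omega
      · intro a ha b hb hab
        have hab' : j + a = j + b := hab
        omega
      · have := hM' (2 * J)
        push_cast at this
        exact this
    refine (sum_le_sum this).trans ?_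
    rw [sum_const, nsmul_eq_mul, hcard]
    exact le_of_eq (by ring)
  calc _ ≤ ∑ j ∈ Icc 1 J, ∑ j' ∈ Icc 1 J,
        (g j + g j' + ((if j' < j then g (j - j') else 0) + (if j < j' then g (j' - j) else 0)) + g (j + j')) / 4 :=
        sum_le_sum (fun j hj => sum_le_sum (fun j' hj' => h1 j hj j' hj'))
    _ = (∑ j ∈ Icc 1 J, ∑ _j' ∈ Icc 1 J, g j + ∑ _j ∈ Icc 1 J, ∑ j' ∈ Icc 1 J, g j' +
        (∑ j ∈ Icc 1 J, ∑ j' ∈ Icc 1 J, (if j' < j then g (j - j') else 0) +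
          ∑ j ∈ Icc 1 J, ∑ j' ∈ Icc 1 J, (if j < j' then g (j' - j) else 0)) +
        ∑ j ∈ Icc 1 J, ∑ j' ∈ Icc 1 J, g (j + j')) / 4 := by
        rw [← sum_add_distrib, ← sum_add_distrib, ← sum_add_distrib, ← sum_add_distrib, sum_div]
        apply sum_congr rfl
        intro j _
        rw [← sum_add_distrib, ← sum_add_distrib, ← sum_add_distrib, ← sum_add_distrib, sum_div]
    _ ≤ 6 * C * J ^ 2 := by
        have : 0 ≤ C * (J : ℝ) ^ 2 := by positivity
        linarith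

/-- equality -/
def eqJ (j j' : ℕ) : Prop := j = j'

/-- the two moments -/
theorem moments : ∃ c C : ℝ, 0 < c ∧ 0 < C ∧ ∀ J y : ℕ,
    c * (J * Vo y) ≤ V1G Gs (fun _ => 1) (Icc 1 J) y ∧
    V2G Gs (fun _ => 1) (Icc 1 J) eqJ y ≤ C * (J * Vo y) ^ 2 := by
  obtain ⟨c, hc, h1⟩ := sum_inv_low
  obtain ⟨C, hC, h2⟩ := sum_pairs
  refine ⟨c, C, hc, hC, ?_⟩
  intro J y
  have hV := Vo_nonneg y
  constructor
  · unfold V1G
    calc c * (J * Vo y) = Vo y * (c * J) := by ring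
      _ ≤ Vo y * ∑ j ∈ Icc 1 J, (tr j)⁻¹ := mul_le_mul_of_nonneg_left (h1 J) hV
      _ = ∑ j ∈ Icc 1 J, Vo y * (tr j)⁻¹ := mul_sum _ _ _
      _ ≤ _ := by
          apply sum_le_sum
          intro j hj
          rw [one_mul]
          exact V_low j y (mem_Icc.1 hj).1
  · unfold V2G
    calc _ ≤ ∑ j ∈ Icc 1 J, ∑ j' ∈ Icc 1 J, Vo y ^ 2 * (if j = j' then (0 : ℝ) else
          (tr j * tr j' * (tr ((j - j') + (j' - j)) * tr (j + j'))) ^ 6) := by
          apply sum_le_sum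
          intro j hj
          apply sum_le_sum
          intro j' hj'
          by_cases h : j = j'
          · rw [if_pos (show eqJ j j' from h), if_pos h, mul_zero]
          · rw [if_neg (show ¬ eqJ j j' from h), if_neg h, one_mul, one_mul]
            exact V_pair j j' y (mem_Icc.1 hj).1 (mem_Icc.1 hj').1 h
      _ = Vo y ^ 2 * ∑ j ∈ Icc 1 J, ∑ j' ∈ Icc 1 J, (if j = j' then (0 : ℝ) else
          (tr j * tr j' * (tr ((j - j') + (j' - j)) * tr (j + j'))) ^ 6) := by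
          rw [mul_sum]
          apply sum_congr rfl
          intro j _
          rw [mul_sum]
      _ ≤ Vo y ^ 2 * (C * J ^ 2) := mul_le_mul_of_nonneg_left (h2 J) (by positivity)
      _ = C * (J * Vo y) ^ 2 := by ring

end Pool.Agent.L0h43.SQ
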