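import Mathlib

set_option autoImplicit false

/-!
# Moments of `n / φ(n)`
-/

namespace Pool.Agent.L0h43.SQ

open Finset

/-- the ratio -/
noncomputable def tr (n : ℕ) : ℝ := (n : ℝ) / (Nat.totient n : ℝ)

lemma tr_prod (n : ℕ) (hn : 1 ≤ n) : tr n = ∏ p ∈ n.primeFactors, ((1 : ℝ) - (p : ℝ)⁻¹)⁻¹ := by
  have hn0 : (0 : ℝ) < n := by exact_mod_cast hn
  have h1 : (Nat.totient n : ℝ) = n * ∏ p ∈ n.primeFactors, (1 - (p : ℝ)⁻¹) := by
    have := Nat.totient_eq_mul_prod_factors n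
    have h2 : ((Nat.totient n : ℚ) : ℝ) = ((n * ∏ p ∈ n.primeFactors, (1 - (p : ℚ)⁻¹) : ℚ) : ℝ) := by
      rw [this]
    push_cast at h2
    exact h2
  unfold tr
  rw [h1, ← div_div, div_self hn0.ne', one_div, Finset.prod_inv_distrib]

lemma tr_one_le (n : ℕ) (hn : 1 ≤ n) : 1 ≤ tr n := by
  unfold tr
  have h1 : (0 : ℝ) < Nat.totient n := by exact_mod_cast Nat.totient_pos.2 hn
  rw [one_le_div h1]
  exact_mod_cast Nat.totient_le n

lemma tr_nonneg (n : ℕ) : 0 ≤ tr n := by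
  unfold tr
  positivity

lemma tr_mul (a b : ℕ) (ha : 1 ≤ a) (hb : 1 ≤ b) : tr (a * b) ≤ tr a * tr b := by
  unfold tr
  have h1 : (0 : ℝ) < Nat.totient a := by exact_mod_cast Nat.totient_pos.2 ha
  have h2 : (0 : ℝ) < Nat.totient b := by exact_mod_cast Nat.totient_pos.2 hb
  have h3 : (Nat.totient a : ℝ) * Nat.totient b ≤ Nat.totient (a * b) := by
    exact_mod_cast Nat.totient_super_multiplicative a b
  rw [div_mul_div_comm]
  push_cast
  exact div_le_div_of_nonneg_left (by positivity) (by positivity) h3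

/-- the local factors -/
lemma loc_fac (k : ℕ) (hk : 1 ≤ k) {p : ℕ} (hp : p.Prime) :
    (((1 : ℝ) - (p : ℝ)⁻¹)⁻¹) ^ k ≤ (if p < 4 * k ^ 2 then 2 ^ k else 1) * (1 + (p : ℝ) ^ (-(1 / 2) : ℝ)) := by
  have h2 : (2 : ℝ) ≤ p := by exact_mod_cast hp.two_le
  have hp0 : (0 : ℝ) < p := by linarith
  have hkr : (1 : ℝ) ≤ k := by exact_mod_cast hk
  have hinv : (p : ℝ)⁻¹ ≤ 1 / 2 := by
    rw [inv_le_comm₀ hp0 (by norm_num)]; norm_num; exact_mod_cast h2
  have hinv0 : 0 < (p : ℝ)⁻¹ := by positivity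
  have hr : 0 < (p : ℝ) ^ (-(1 / 2) : ℝ) := by positivity
  split_ifs with h
  · have h3 : ((1 : ℝ) - (p : ℝ)⁻¹)⁻¹ ≤ 2 := by
      rw [inv_le_comm₀ (by linarith) (by norm_num)]; norm_num; linarith
    have h4 : (((1 : ℝ) - (p : ℝ)⁻¹)⁻¹) ^ k ≤ 2 ^ k :=
      pow_le_pow_left₀ (inv_nonneg.2 (by linarith)) h3 k
    have h5 : (0 : ℝ) < 2 ^ k := by positivity
    nlinarith
  · push Not at h
    have h64 : 4 * (k : ℝ) ^ 2 ≤ p := by exact_mod_cast h
    obtain ⟨t, ht⟩ : ∃ t, t = (p : ℝ) ^ (-(1 / 2) : ℝ) := ⟨_, rfl⟩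
    rw [← ht] at hr ⊢
    have ht2 : t ^ 2 = (p : ℝ)⁻¹ := by
      rw [ht, ← Real.rpow_natCast, ← Real.rpow_mul hp0.le]
      norm_num
      exact Real.rpow_neg_one _
    have ht8 : t * (2 * k) ≤ 1 := by
      have h7 : (t * (2 * k)) ^ 2 ≤ 1 := by
        rw [mul_pow, ht2, inv_mul_le_iff₀ hp0, mul_one]
        have e : (2 * (k : ℝ)) ^ 2 = 4 * (k : ℝ) ^ 2 := by ring
        rw [e]
        exact h64
      nlinarith [mul_pos hr (by linarith : (0 : ℝ) < 2 * k)]
    have ht1 : t ≤ 1 / 2 := by nlinarith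
    rw [← ht2, inv_pow, one_mul]
    have ht3 : 0 < 1 - t ^ 2 := by nlinarith
    have h5 : 0 < (1 - t ^ 2) ^ k := by positivity
    rw [inv_le_iff_one_le_mul₀ h5]
    have h6 : 1 - k * t ^ 2 ≤ (1 - t ^ 2) ^ k := by
      have := one_add_mul_le_pow (a := -t ^ 2) (by nlinarith) k
      have h7 : (1 + -t ^ 2) = 1 - t ^ 2 := by ring
      rw [h7] at this
      linarith
    have h8 : 1 ≤ (1 + t) * (1 - k * t ^ 2) := by
      have h9 : (1 + t) * (1 - k * t ^ 2) = 1 + t * (1 - k * t - k * t * t) := by ring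
      rw [h9]
      have h10 : 0 ≤ 1 - k * t - k * t * t := by nlinarith
      nlinarith [mul_nonneg hr.le h10]
    calc (1 : ℝ) ≤ (1 + t) * (1 - k * t ^ 2) := h8
      _ ≤ (1 + t) * (1 - t ^ 2) ^ k := mul_le_mul_of_nonneg_left h6 (by linarith)

lemma tr_pow_le (k : ℕ) (hk : 1 ≤ k) (n : ℕ) (hn : 1 ≤ n) :
    tr n ^ k ≤ (2 ^ k) ^ (4 * k ^ 2) * ∑ d ∈ n.divisors, (d : ℝ) ^ (-(1 / 2) : ℝ) := by
  have hpow : (1 : ℝ) ≤ 2 ^ k := one_le_pow₀ (by norm_num)
  rw [tr_prod n hn, ← Finset.prod_pow]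
  calc ∏ p ∈ n.primeFactors, (((1 : ℝ) - (p : ℝ)⁻¹)⁻¹) ^ k
      ≤ ∏ p ∈ n.primeFactors, ((if p < 4 * k ^ 2 then 2 ^ k else 1) * (1 + (p : ℝ) ^ (-(1 / 2) : ℝ))) := by
        refine Finset.prod_le_prod (fun p hp => ?_) fun p hp => ?_
        · have h2 : (2 : ℝ) ≤ p := by exact_mod_cast (Nat.prime_of_mem_primeFactors hp).two_le
          have h3 : (p : ℝ)⁻¹ ≤ 1 := inv_le_one_of_one_le₀ (by linarith)
          exact pow_nonneg (inv_nonneg.2 (by linarith)) _
        · exact loc_fac k hk (Nat.prime_of_mem_primeFactors hp)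
    _ = (∏ p ∈ n.primeFactors, (if p < 4 * k ^ 2 then (2 : ℝ) ^ k else 1)) *
        ∏ p ∈ n.primeFactors, (1 + (p : ℝ) ^ (-(1 / 2) : ℝ)) := Finset.prod_mul_distrib
    _ ≤ (2 ^ k) ^ (4 * k ^ 2) * ∑ d ∈ n.divisors, (d : ℝ) ^ (-(1 / 2) : ℝ) := by
        refine mul_le_mul ?_ ?_ (Finset.prod_nonneg fun p _ => by positivity) (by positivity)
        · rw [Finset.prod_ite, Finset.prod_const, Finset.prod_const_one, mul_one]
          refine pow_le_pow_right₀ hpow ?_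
          have : (n.primeFactors.filter (fun p => p < 4 * k ^ 2)) ⊆ Finset.range (4 * k ^ 2) := by
            intro p hp
            rw [Finset.mem_filter] at hp
            exact Finset.mem_range.2 hp.2
          simpa using Finset.card_le_card this
        · rw [Finset.prod_one_add]
          have hprod : ∀ s ∈ n.primeFactors.powerset,
              ∏ p ∈ s, (p : ℝ) ^ (-(1 / 2) : ℝ) = ((∏ p ∈ s, p : ℕ) : ℝ) ^ (-(1 / 2) : ℝ) := by
            intro s _
            rw [Nat.cast_prod, Real.finsetProd_rpow s (fun p => (p : ℝ)) (fun p _ => by positivity)]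
          rw [Finset.sum_congr rfl hprod]
          have hinj : Set.InjOn (fun s : Finset ℕ => ∏ p ∈ s, p) (n.primeFactors.powerset : Set (Finset ℕ)) := by
            intro s hs t ht hst
            simp only [Finset.coe_powerset, Set.mem_preimage, Set.mem_powerset_iff] at hs ht
            have h3 : (∏ p ∈ s, p).primeFactors = s := Nat.primeFactors_prod fun p hp =>
              Nat.prime_of_mem_primeFactors (hs hp)
            have h4 : (∏ p ∈ t, p).primeFactors = t := Nat.primeFactors_prod fun p hp =>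
              Nat.prime_of_mem_primeFactors (ht hp)
            have h5 : ∏ p ∈ s, p = ∏ p ∈ t, p := hst
            rw [← h3, h5, h4]
          rw [← Finset.sum_image (f := fun d : ℕ => (d : ℝ) ^ (-(1 / 2) : ℝ)) hinj]
          refine Finset.sum_le_sum_of_subset_of_nonneg ?_ fun d _ _ => by positivity
          intro d hd
          rw [Finset.mem_image] at hd
          obtain ⟨s, hs, rfl⟩ := hd
          rw [Finset.mem_powerset] at hs
          rw [Nat.mem_divisors]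
          exact ⟨(Finset.prod_dvd_prod_of_subset _ _ _ hs).trans (Nat.prod_primeFactors_dvd n), by omega⟩

theorem tr_moment (k : ℕ) (hk : 1 ≤ k) : ∃ C : ℝ, 1 ≤ C ∧ ∀ N : ℕ,
    ∑ n ∈ Finset.Icc 1 N, tr n ^ k ≤ C * N := by
  have hs : Summable (fun d : ℕ => (d : ℝ) ^ (-(3 / 2) : ℝ)) :=
    Real.summable_nat_rpow.2 (by norm_num)
  obtain ⟨K, hK⟩ : ∃ K : ℝ, K = (2 ^ k) ^ (4 * k ^ 2) := ⟨_, rfl⟩
  have hK0 : 0 ≤ K := by rw [hK]; positivity
  obtain ⟨S, hS⟩ : ∃ S, S = ∑' d : ℕ, (d : ℝ) ^ (-(3 / 2) : ℝ) := ⟨_, rfl⟩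
  have hS0 : 0 ≤ S := by
    rw [hS]
    exact tsum_nonneg (fun d => by positivity)
  refine ⟨K * S + 1, by nlinarith [mul_nonneg hK0 hS0], fun N => ?_⟩
  calc ∑ n ∈ Finset.Icc 1 N, tr n ^ k
      ≤ ∑ n ∈ Finset.Icc 1 N, K * ∑ d ∈ n.divisors, (d : ℝ) ^ (-(1 / 2) : ℝ) :=
        Finset.sum_le_sum fun n hn => by
          rw [hK]
          exact tr_pow_le k hk n (Finset.mem_Icc.1 hn).1
    _ = K * ∑ n ∈ Finset.Icc 1 N, ∑ d ∈ n.divisors, (d : ℝ) ^ (-(1 / 2) : ℝ) := by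
        rw [Finset.mul_sum]
    _ ≤ K * (S * N) := by
        refine mul_le_mul_of_nonneg_left ?_ hK0
        have h1 : ∑ n ∈ Finset.Icc 1 N, ∑ d ∈ n.divisors, (d : ℝ) ^ (-(1 / 2) : ℝ) =
            ∑ d ∈ Finset.Icc 1 N, ∑ n ∈ (Finset.Icc 1 N).filter (fun n => d ∣ n), (d : ℝ) ^ (-(1 / 2) : ℝ) := by
          refine Finset.sum_comm' ?_
          intro n d
          simp only [Finset.mem_Icc, Nat.mem_divisors, Finset.mem_filter]
          constructor
          · rintro ⟨⟨h1, h2⟩, h3, h4⟩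
            exact ⟨⟨⟨h1, h2⟩, h3⟩, Nat.pos_of_dvd_of_pos h3 h1, (Nat.le_of_dvd h1 h3).trans h2⟩
          · rintro ⟨⟨⟨h1, h2⟩, h3⟩, _⟩
            exact ⟨⟨h1, h2⟩, h3, by omega⟩
        rw [h1]
        have h2 : ∀ d ∈ Finset.Icc 1 N, ∑ n ∈ (Finset.Icc 1 N).filter (fun n => d ∣ n), (d : ℝ) ^ (-(1 / 2) : ℝ) ≤
            (d : ℝ) ^ (-(3 / 2) : ℝ) * N := by
          intro d hd
          rw [Finset.mem_Icc] at hd
          have hd0 : (0 : ℝ) < d := by exact_mod_cast hd.1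
          rw [Finset.sum_const, nsmul_eq_mul]
          have h3 : ((Finset.Icc 1 N).filter (fun n => d ∣ n)).card = N / d := by
            have := Nat.Ioc_filter_dvd_card_eq_div N d
            rw [← this]
            rfl
          rw [h3]
          have h4 : ((N / d : ℕ) : ℝ) ≤ N / d := Nat.cast_div_le
          have h5 : (d : ℝ) ^ (-(3 / 2) : ℝ) * N = N / d * (d : ℝ) ^ (-(1 / 2) : ℝ) := by
            have : (d : ℝ) ^ (-(3 / 2) : ℝ) = (d : ℝ) ^ (-(1 / 2) : ℝ) / d := by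
              rw [← Real.rpow_sub_one hd0.ne']; norm_num
            rw [this]; ring
          rw [h5]
          exact mul_le_mul_of_nonneg_right h4 (by positivity)
        refine (Finset.sum_le_sum h2).trans ?_
        rw [← Finset.sum_mul, hS]
        exact mul_le_mul_of_nonneg_right (hs.sum_le_tsum _ fun d _ => by positivity) (by positivity)
    _ ≤ (K * S + 1) * N := by
        have : (0 : ℝ) ≤ N := Nat.cast_nonneg _
        nlinarith

end Pool.Agent.L0h43.SQ
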