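import Pool.Agent.L0h41.QN.A
import Pool.Agent.L0h43.SQ.Mom

set_option autoImplicit false

/-!
# The forms `n² + j²`: the local factors
-/

namespace Pool.Agent.L0h43.SQ

open Finset Filter
open Pool.Agent.W123.RP Pool.Agent.H373R2.T7
open Pool.Agent.L0h41.LW Pool.Agent.L0h41.QN

/-- the values `n² + j²` -/
def Gs (j : ℕ) : ℕ → ℕ := fun n => n ^ 2 + j ^ 2

lemma card_inj (a p : ℕ) (ha : Nat.Coprime p a) (P Q : ℕ → Prop) (h : ∀ r, P r → Q ((a * r) % p)) :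
    nuB (fun _ r => P r) p ≤ nuB (fun _ r => Q r) p := by
  classical
  unfold nuB
  apply card_le_card_of_injOn (fun r => (a * r) % p)
  · intro r hr
    rw [mem_coe, mem_filter, mem_range] at hr
    show (a * r) % p ∈ _
    rw [mem_coe, mem_filter, mem_range]
    exact ⟨Nat.mod_lt _ (by omega), h r hr.2⟩
  · intro r hr s hs hrs
    rw [mem_coe, mem_filter, mem_range] at hr hs
    have h1 : a * r ≡ a * s [MOD p] := hrs
    have h2 : r ≡ s [MOD p] := Nat.ModEq.cancel_left_of_coprime ha h1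
    exact Nat.ModEq.eq_of_lt_of_lt h2 hr.1 hs.1

lemma dvd_mod (p n j : ℕ) : p ∣ (n % p) ^ 2 + j ^ 2 ↔ p ∣ n ^ 2 + j ^ 2 := by
  have h1 : (n % p) ^ 2 + j ^ 2 ≡ n ^ 2 + j ^ 2 [MOD p] :=
    Nat.ModEq.add_right _ ((Nat.mod_modEq n p).pow 2)
  exact h1.dvd_iff dvd_rfl

/-- the number of the roots for `p ∤ j` -/
lemma nu_coprime (p j : ℕ) (hp : p.Prime) (hj : ¬ p ∣ j) :
    nuB (DQ (Gs j)) p = nuB (DQ (Gs 1)) p := by
  have hc : Nat.Coprime p j := (Nat.Prime.coprime_iff_not_dvd hp).2 hj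
  apply le_antisymm
  · -- an inverse
    obtain ⟨i, hi⟩ : ∃ i, j * i ≡ 1 [MOD p] := by
      obtain ⟨i, -, hi⟩ := Nat.exists_mul_mod_eq_one_of_coprime hc.symm hp.one_lt
      exact ⟨i, by rw [Nat.ModEq, hi, Nat.mod_eq_of_lt hp.one_lt]⟩
    have hci : Nat.Coprime p i := by
      rw [Nat.Prime.coprime_iff_not_dvd hp]
      intro hd
      have h1 : j * i ≡ 0 [MOD p] := (Nat.modEq_zero_iff_dvd).2 (hd.mul_left j)
      have h2 : 1 ≡ 0 [MOD p] := hi.symm.trans h1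
      have h3 := (Nat.modEq_zero_iff_dvd).1 h2
      exact hp.one_lt.ne' (Nat.dvd_one.1 h3)
    exact card_inj i p hci (fun r => p ∣ r ^ 2 + j ^ 2) (fun r => p ∣ r ^ 2 + 1 ^ 2) (by
      intro r hr
      rw [dvd_mod]
      have h1 : p ∣ i ^ 2 * (r ^ 2 + j ^ 2) := hr.mul_left _
      have h2 : i ^ 2 * (r ^ 2 + j ^ 2) = (i * r) ^ 2 + (j * i) ^ 2 := by ring
      rw [h2] at h1
      have h3 : (i * r) ^ 2 + (j * i) ^ 2 ≡ (i * r) ^ 2 + 1 ^ 2 [MOD p] :=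
        Nat.ModEq.add_left _ (hi.pow 2)
      exact (h3.dvd_iff dvd_rfl).1 h1)
  · exact card_inj j p hc (fun r => p ∣ r ^ 2 + 1 ^ 2) (fun r => p ∣ r ^ 2 + j ^ 2) (by
      intro r hr
      rw [dvd_mod]
      have h1 : p ∣ j ^ 2 * (r ^ 2 + 1 ^ 2) := hr.mul_left _
      have h2 : j ^ 2 * (r ^ 2 + 1 ^ 2) = (j * r) ^ 2 + j ^ 2 := by ring
      rwa [h2] at h1)

/-- the number of the roots for `p ∣ j` -/
lemma nu_dvd (p j : ℕ) (hp : p.Prime) (hj : p ∣ j) : nuB (DQ (Gs j)) p ≤ 1 := by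
  classical
  unfold nuB
  rw [card_le_one]
  have key : ∀ r, r < p → DQ (Gs j) p r → r = 0 := by
    intro r hr hd
    have h1 : p ∣ r ^ 2 + j ^ 2 := hd
    have h2 : p ∣ r ^ 2 := (Nat.dvd_add_left (dvd_pow hj (by norm_num))).1 h1
    have h3 := hp.dvd_of_dvd_pow h2
    exact Nat.eq_zero_of_dvd_of_lt h3 hr
  intro r hr s hs
  rw [mem_filter, mem_range] at hr hs
  rw [key r hr.1 hr.2, key s hs.1 hs.2]

/-- the number of the roots is at most `2` -/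
lemma rho_le_two (p : ℕ) (hp : p.Prime) : nuB (DQ (Gs 1)) p ≤ 2 := by
  classical
  by_cases h0 : nuB (DQ (Gs 1)) p = 0
  · omega
  unfold nuB at h0 ⊢
  obtain ⟨r, hr⟩ := card_pos.1 (Nat.pos_of_ne_zero h0)
  rw [mem_filter, mem_range] at hr
  refine le_trans (card_le_card (t := {r, p - r}) ?_) card_le_two
  intro s hs
  rw [mem_filter, mem_range] at hs
  rw [mem_insert, mem_singleton]
  have h1 : (p : ℤ) ∣ ((s : ℤ) - r) * (s + r) := by
    have a1 : (p : ℤ) ∣ ((s ^ 2 + 1 ^ 2 : ℕ) : ℤ) := Int.natCast_dvd_natCast.2 hs.2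
    have a2 : (p : ℤ) ∣ ((r ^ 2 + 1 ^ 2 : ℕ) : ℤ) := Int.natCast_dvd_natCast.2 hr.2
    have a3 := dvd_sub a1 a2
    have e : ((s ^ 2 + 1 ^ 2 : ℕ) : ℤ) - ((r ^ 2 + 1 ^ 2 : ℕ) : ℤ) = ((s : ℤ) - r) * (s + r) := by
      push_cast
      ring
    rwa [e] at a3
  rcases (Nat.prime_iff_prime_int.1 hp).dvd_or_dvd h1 with h2 | h2
  · left
    have h5 : (r : ℤ) ≡ s [ZMOD p] := Int.modEq_iff_dvd.2 h2
    have h6 : r ≡ s [MOD p] := Int.natCast_modEq_iff.1 h5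
    exact (Nat.ModEq.eq_of_lt_of_lt h6 hr.1 hs.1).symm
  · have h3 : p ∣ s + r := by exact_mod_cast h2
    have h4 := hr.1
    have h5 := hs.1
    rcases h3 with ⟨c, hc⟩
    have hp0 := hp.pos
    have hc2 : c < 2 := by
      by_contra hcon
      have : 2 ≤ c := by omega
      nlinarith
    interval_cases c
    · left
      omega
    · right
      omega

lemma rho_two : nuB (DQ (Gs 1)) 2 ≤ 1 := by
  classical
  unfold nuB
  rw [card_le_one]
  have key : ∀ r, r < 2 → DQ (Gs 1) 2 r → r = 1 := by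
    intro r hr hd
    have h1 : 2 ∣ r ^ 2 + 1 ^ 2 := hd
    interval_cases r
    · norm_num at h1
    · rfl
  intro r hr s hs
  rw [mem_filter, mem_range] at hr hs
  rw [key r hr.1 hr.2, key s hs.1 hs.2]

lemma rho_three (p : ℕ) (hp : p.Prime) (h3 : p % 4 = 3) : nuB (DQ (Gs 1)) p = 0 := by
  classical
  unfold nuB
  rw [card_eq_zero, filter_eq_empty_iff]
  intro r _ hd
  have h1 : p ∣ r ^ 2 + 1 ^ 2 := hd
  have : Fact p.Prime := ⟨hp⟩
  have h2 : (((r ^ 2 + 1 ^ 2 : ℕ)) : ZMod p) = 0 := (ZMod.natCast_eq_zero_iff _ _).2 h1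
  push_cast at h2
  have h4 : IsSquare (-1 : ZMod p) := ⟨(r : ZMod p), by linear_combination -h2⟩
  exact (ZMod.exists_sq_eq_neg_one_iff.1 h4) h3

/-- the pairs of roots -/
lemma nu_pair (p j j' : ℕ) (hp : p.Prime) (hj : ¬ p ∣ j) (hj' : ¬ p ∣ j')
    (hd : ¬ (p : ℤ) ∣ (j : ℤ) ^ 2 - (j' : ℤ) ^ 2) :
    2 * nuB (DQ (Gs 1)) p ≤ nuB (QPP (Gs j) (Gs j')) p := by
  classical
  have h1 := nu_coprime p j hp hj
  have h2 := nu_coprime p j' hp hj'
  have h3 : nuB (DQ (Gs j)) p + nuB (DQ (Gs j')) p ≤ nuB (QPP (Gs j) (Gs j')) p := by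
    unfold nuB
    rw [← card_union_of_disjoint]
    · apply card_le_card
      intro r hr
      rw [mem_union, mem_filter, mem_filter] at hr
      rw [mem_filter]
      rcases hr with hr | hr
      · exact ⟨hr.1, Or.inl hr.2⟩
      · exact ⟨hr.1, Or.inr hr.2⟩
    · rw [disjoint_left]
      intro r hr hs
      rw [mem_filter] at hr hs
      apply hd
      have a1 : (p : ℤ) ∣ ((r ^ 2 + j ^ 2 : ℕ) : ℤ) := Int.natCast_dvd_natCast.2 hr.2
      have a2 : (p : ℤ) ∣ ((r ^ 2 + j' ^ 2 : ℕ) : ℤ) := Int.natCast_dvd_natCast.2 hs.2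
      have a3 := dvd_sub a1 a2
      have e : ((r ^ 2 + j ^ 2 : ℕ) : ℤ) - ((r ^ 2 + j' ^ 2 : ℕ) : ℤ) = (j : ℤ) ^ 2 - (j' : ℤ) ^ 2 := by
        push_cast
        ring
      rwa [e] at a3
  omega

end Pool.Agent.L0h43.SQ
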