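import Pool.Agent.L0h43.SQ.Avs
import Pool.Agent.L0h41.PP.D

set_option autoImplicit false

/-!
# Sums of two squares just above squares
-/

namespace Pool.Agent.L0h43.SQ

open Finset Filter
open Pool.Agent.W123.RP Pool.Agent.H373R2.T7 Pool.Agent.W123.RU Pool.Agent.TH464.PO Pool.Agent.TH464.PW
open Pool.Agent.W23.DC Pool.Agent.Y882 Pool.Agent.Y882.KW Pool.Agent.Y882.SI Pool.Agent.Y882.PX
open Pool.Agent.Y879.AP
open Pool.Agent.L0h41.LW Pool.Agent.L0h41.QN Pool.Agent.L0h41.PP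

/-- the elementary inequality -/
lemma min_algK (x K : ℝ) (hx : 0 < x) (hK : 0 ≤ K) : min x 1 / (2 + K) ≤ x ^ 2 / (2 * x + K * x ^ 2) := by
  rw [div_le_div_iff₀ (by positivity) (by positivity)]
  rcases le_total x 1 with h | h
  · rw [min_eq_left h]
    have h1 : x ^ 2 ≤ x := by nlinarith
    nlinarith [mul_nonneg hK (by nlinarith : (0 : ℝ) ≤ x ^ 2 - x * x ^ 2)]
  · rw [min_eq_right h]
    nlinarith

open Classical in
/-- the number of the `j ≤ J` such that `n² + j²` has at most `k` prime factors, all `≥ v` -/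
noncomputable def Nss (n k J : ℕ) (v : ℝ) : ℕ :=
  ((Icc 1 J).filter (fun j => (n ^ 2 + j ^ 2).primeFactorsList.length ≤ k ∧
    ∀ p : ℕ, p.Prime → p ∣ n ^ 2 + j ^ 2 → v ≤ (p : ℝ))).card

open Classical in
lemma GoodG_leS (X R n J : ℕ) (ζ v : ℝ) (hv : v ≤ (X : ℝ) ^ ζ) :
    (GoodG Gs (Icc 1 J) X R n ζ).card ≤ Nss n R J v := by
  unfold GoodG Nss
  apply card_le_card
  intro j hj
  rw [mem_filter] at hj ⊢
  exact ⟨hj.1, hj.2.1, fun p hp hd => hv.trans (hj.2.2 p hp hd)⟩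

lemma Gs_eq (j : ℕ) : Gs j = Fh (j ^ 2) := by
  funext n
  rw [Fh_eq]
  rfl

set_option maxHeartbeats 4000000 in
open Classical in
/-- **Almost primes `n² + j²`, `j ≤ J`, for a positive proportion of the `n`.** -/
theorem mainSS (θ : ℝ) (R : ℕ) (hθ : 0 < θ) (hθ1 : θ ≤ 1) (hR : 1 / 8 + 25 / (12 * θ) < R) :
    ∃ κ : ℝ, 0 < κ ∧ ∀ B : ℕ, ∀ᶠ X : ℕ in atTop, ∀ Z L J : ℕ, (X : ℝ) ^ θ ≤ L → Z + L ≤ X →
      1 ≤ J → (J : ℝ) ≤ Real.log X ^ B →
      κ * min 1 (J / Real.log X) * L ≤ (((Ioc Z (Z + L)).filter (fun n => 1 ≤ Nss n R J ((X : ℝ) ^ (θ / 5)) ∧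
        κ * (J / Real.log X) ≤ Nss n R J ((X : ℝ) ^ (θ / 5)))).card : ℝ) := by
  obtain ⟨r, ζ, υ, S, κ0, ηM, hr2, -, hζ, hυ, hS, hκ0, hηM, hmain⟩ :=
    mainPR 2 1 2 (by norm_num) (by norm_num) θ R 2 hθ hθ1 (by
      refine lt_of_le_of_lt (le_of_eq ?_) hR
      push_cast
      field_simp
      ring)
  have hr0 : (0 : ℝ) < r := by exact_mod_cast (by omega : 0 < r)
  have hS2 : (2 : ℝ) < S := by exact_mod_cast hS
  obtain ⟨cv, hcv, hVo⟩ := Vo_low
  obtain ⟨c1, C1, hc1, hC1, hmom⟩ := moments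
  obtain ⟨cz, hczd⟩ : ∃ cz, cz = c1 * cv := ⟨_, rfl⟩
  have hcz : 0 < cz := by rw [hczd]; positivity
  obtain ⟨K, hK⟩ : ∃ K, K = 2 * (C1 / c1 ^ 2) + 1 := ⟨_, rfl⟩
  have hK0 : 0 < K := by rw [hK]; positivity
  obtain ⟨κ, hκ⟩ : ∃ κ, κ = min (κ0 * cz / 8) (κ0 ^ 2 / (64 * (2 + K)) * min cz 1) := ⟨_, rfl⟩
  have hκpos : 0 < κ := by
    rw [hκ]
    apply lt_min (by positivity)
    have : 0 < min cz 1 := lt_min (by positivity) one_pos
    positivity
  have hκ1 : κ ≤ κ0 * cz / 8 := by rw [hκ]; exact min_le_left _ _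
  have hκ2 : κ ≤ κ0 ^ 2 / (64 * (2 + K)) * min cz 1 := by rw [hκ]; exact min_le_right _ _
  refine ⟨κ, hκpos, ?_⟩
  intro B
  obtain ⟨B1, hB1⟩ : ∃ B1, B1 = B + 2 := ⟨_, rfl⟩
  obtain ⟨W1, hW1⟩ : ∃ W1, W1 = 2 * B + 1 := ⟨_, rfl⟩
  have tl : Tendsto (fun X : ℕ => Real.log (X : ℝ)) atTop atTop :=
    Real.tendsto_log_atTop.comp tendsto_natCast_atTop_atTop
  have tp : ∀ e : ℝ, 0 < e → Tendsto (fun X : ℕ => (X : ℝ) ^ e) atTop atTop := fun e he =>
    (tendsto_rpow_atTop he).comp tendsto_natCast_atTop_atTop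
  have e1 := hmain B1
  have e2 := merU W1 (1 / (r : ℝ)) υ ηM (by positivity) hυ hηM
  have e4 := tl.eventually_ge_atTop (4 + 2 / cz)
  have e5 := (tp (1 / (r : ℝ)) (by positivity)).eventually_ge_atTop 5
  have e6 := logpow_rpow (2 * B + 1) 9 (1 / (r : ℝ)) (by positivity) (by positivity)
  have e8 := logpow_rpow (2 * B + 1) 1 (S - 2) (by norm_num) (by linarith)
  filter_upwards [e1, e2, e4, e5, e6, e8, eventually_ge_atTop 3] with X f1 f2 f4 f5 f6 f8 f12
  clear e1 e2 e4 e5 e6 e8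
  intro Z L J hXL hZL hJ1 hJ2
  obtain ⟨T, hT⟩ : ∃ T, T = J ^ 2 := ⟨_, rfl⟩
  obtain ⟨y, hy⟩ : ∃ y, y = ⌊(X : ℝ) ^ (1 / (r : ℝ))⌋₊ := ⟨_, rfl⟩
  rw [← hy] at f1
  have hX0 : (0 : ℝ) < X := by exact_mod_cast (by omega : 0 < X)
  have hX1 : (1 : ℝ) ≤ X := by exact_mod_cast (by omega : 1 ≤ X)
  have hcz2 : 0 < 2 / cz := by positivity
  have hlX : 4 ≤ Real.log X := by linarith
  have hlX0 : 0 < Real.log X := by linarith
  have hlX1 : 1 ≤ Real.log X := by linarith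
  have hJ11 : (1 : ℝ) ≤ J := by exact_mod_cast hJ1
  have hJpos : (0 : ℝ) < J := by linarith
  have hjT : ∀ j ∈ Icc 1 J, j ^ 2 ≤ T := by
    intro j hj
    rw [hT]
    exact Nat.pow_le_pow_left (mem_Icc.1 hj).2 2
  have hj1 : ∀ j ∈ Icc 1 J, 1 ≤ j ^ 2 := by
    intro j hj
    exact Nat.one_le_pow _ _ (mem_Icc.1 hj).1
  have hyX : y ≤ X := by
    rw [hy]
    apply Nat.floor_le_of_le
    calc (X : ℝ) ^ (1 / (r : ℝ)) ≤ (X : ℝ) ^ (1 : ℝ) := by
          apply Real.rpow_le_rpow_of_exponent_le hX1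
          rw [div_le_one hr0]
          exact_mod_cast (by omega : 1 ≤ r)
      _ = X := Real.rpow_one _
  have hwy : 5 ≤ y := by
    rw [hy]
    apply Nat.le_floor
    push_cast
    exact f5
  -- the density
  have hVy := hVo y (by omega)
  have hyr : (1 : ℝ) < y := by exact_mod_cast (by omega : 1 < y)
  have hly : 0 < Real.log y := Real.log_pos hyr
  have hlyX : Real.log y ≤ Real.log X := Real.log_le_log (by linarith) (by exact_mod_cast hyX)
  have hVlow : cv / Real.log X ≤ Vo y := by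
    refine le_trans ?_ hVy
    exact div_le_div_of_nonneg_left hcv.le hly hlyX
  obtain ⟨h1, h2⟩ := hmom J y
  have hVG : J * (cz / Real.log X) ≤ V1G Gs (fun _ => 1) (Icc 1 J) y := by
    refine le_trans ?_ h1
    have e : J * (cz / Real.log X) = c1 * (J * (cv / Real.log X)) := by rw [hczd]; ring
    rw [e]
    exact mul_le_mul_of_nonneg_left (mul_le_mul_of_nonneg_left hVlow hJpos.le) hc1.le
  have hJVpos : 0 < J * (cz / Real.log X) := by positivity
  have hVG0 : 0 < V1G Gs (fun _ => 1) (Icc 1 J) y := by linarith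
  -- the sizes
  have hJB : (J : ℝ) ≤ Real.log X ^ B1 := hJ2.trans (pow_le_pow_right₀ hlX1 (by omega))
  have hT2 : (T : ℝ) ≤ Real.log X ^ (2 * B) := by
    rw [hT]
    push_cast
    calc (J : ℝ) ^ 2 ≤ (Real.log X ^ B) ^ 2 := pow_le_pow_left₀ hJpos.le hJ2 2
      _ = Real.log X ^ (2 * B) := by rw [← pow_mul, mul_comm]
  have hT4 : 4 * (T : ℝ) ≤ Real.log X ^ (2 * B + 1) := by
    rw [pow_succ, mul_comm]
    exact mul_le_mul hT2 hlX (by norm_num) (by positivity)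
  have hT11 : (1 : ℝ) ≤ T := by
    rw [hT]
    push_cast
    exact one_le_pow₀ hJ11
  have hTy : 1 + 4 * T ≤ y := by
    rw [hy]
    apply Nat.le_floor
    push_cast
    refine le_trans ?_ f6
    have : (1 : ℝ) ≤ Real.log X ^ (2 * B + 1) := one_le_pow₀ hlX1
    linarith
  have hdisc : ∀ j ∈ Icc 1 J, |((((0 : ℤ) ^ 2 - 4 * 1 * ((j ^ 2 : ℕ) : ℤ) : ℤ)) : ℝ)| ≤ Real.log X ^ W1 := by
    intro j hj
    have h3 : ((j ^ 2 : ℕ) : ℝ) ≤ T := by exact_mod_cast hjT j hj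
    have h4 : (0 : ℝ) ≤ ((j ^ 2 : ℕ) : ℝ) := Nat.cast_nonneg _
    have e : ((((0 : ℤ) ^ 2 - 4 * 1 * ((j ^ 2 : ℕ) : ℤ) : ℤ)) : ℝ) = -(4 * ((j ^ 2 : ℕ) : ℝ)) := by
      push_cast
      ring
    rw [e, abs_neg, abs_of_nonneg (by positivity), hW1]
    linarith
  have key := f1 Z L hXL Gs (fun _ => 1) (Icc 1 J) eqJ (by
      refine ⟨?_, fun _ _ => zero_le_one, ?_, ?_, ?_⟩
      · intro j _
        refine ⟨fun p n => (dvd_mod p n j).symm, fun p hp => ?_⟩
        by_cases hd : p ∣ j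
        · have := nu_dvd p j hp hd
          exact this.trans (by norm_num)
        · rw [nu_coprime p j hp hd]
          exact rho_le_two p hp
      · intro j hj j' hj' hne n p hp hyp hd hd'
        have hne : ¬ j = j' := hne
        have b1 := hjT j hj
        have b2 := hjT j' hj'
        have hd2 : (p : ℤ) ∣ ((j ^ 2 : ℕ) : ℤ) - ((j' ^ 2 : ℕ) : ℤ) := by
          have a1 : (p : ℤ) ∣ ((n ^ 2 + j ^ 2 : ℕ) : ℤ) := Int.natCast_dvd_natCast.2 hd
          have a2 : (p : ℤ) ∣ ((n ^ 2 + j' ^ 2 : ℕ) : ℤ) := Int.natCast_dvd_natCast.2 hd'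
          have a3 := dvd_sub a1 a2
          have e : ((n ^ 2 + j ^ 2 : ℕ) : ℤ) - ((n ^ 2 + j' ^ 2 : ℕ) : ℤ) = ((j ^ 2 : ℕ) : ℤ) - ((j' ^ 2 : ℕ) : ℤ) := by
            push_cast
            ring
          rwa [e] at a3
        have hne2 : j ^ 2 ≠ j' ^ 2 := fun h => hne (Nat.pow_left_injective (n := 2) (by norm_num) h)
        generalize j ^ 2 = a at hd2 b1 hne2
        generalize j' ^ 2 = b at hd2 b2 hne2
        have h3 := Nat.le_of_dvd (Int.natAbs_pos.2 (by omega)) (Int.natCast_dvd.1 hd2)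
        omega
      · intro j _
        exact card_le_one.2 (fun a ha b hb => (mem_filter.1 ha).2.symm.trans (mem_filter.1 hb).2)
      · intro j _
        exact card_le_one.2 (fun a ha b hb => (mem_filter.1 ha).2.trans (mem_filter.1 hb).2.symm)) (by
      intro j hj
      rw [Gs_eq]
      apply f2 1 0 ((j ^ 2 : ℕ) : ℤ) one_ne_zero _ (disc_h (j ^ 2) (hj1 j hj)) (hdisc j hj)
      have e : (((2 * (1 : ℤ)).natAbs : ℕ) : ℝ) = 2 := by norm_num
      rw [e]
      linarith) (by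
      intro j hj n hn
      rw [Gs_eq, Fh_eq]
      have b1 := hjT j hj
      have b2 := hj1 j hj
      rw [mem_Ioc] at hn
      refine ⟨by omega, ?_⟩
      have q1 : (n : ℝ) ≤ X := by exact_mod_cast (by omega : n ≤ X)
      have q2 : (n : ℝ) ^ 2 ≤ (X : ℝ) ^ 2 := pow_le_pow_left₀ (Nat.cast_nonneg _) q1 2
      have q3 : ((j ^ 2 : ℕ) : ℝ) ≤ T := by exact_mod_cast b1
      have q4 : (T : ℝ) ≤ (X : ℝ) ^ 2 * (Real.log X ^ (2 * B + 1) - 1) := by
        have : (1 : ℝ) ≤ (X : ℝ) ^ 2 := one_le_pow₀ hX1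
        have q5 : (T : ℝ) ≤ Real.log X ^ (2 * B + 1) - 1 := by
          have : 1 ≤ (T : ℝ) := by linarith
          linarith
        nlinarith
      rw [Nat.cast_add, Nat.cast_pow n 2]
      calc (n : ℝ) ^ 2 + ((j ^ 2 : ℕ) : ℝ) ≤ (X : ℝ) ^ 2 * Real.log X ^ (2 * B + 1) := by linarith
        _ ≤ (X : ℝ) ^ 2 * (X : ℝ) ^ (S - 2) := by
            apply mul_le_mul_of_nonneg_left _ (by positivity)
            linarith
        _ = (X : ℝ) ^ S := by
            rw [← Real.rpow_natCast (X : ℝ) 2, ← Real.rpow_add hX0]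
            congr 1
            push_cast
            ring) (by
      intro j hj p hp hyp
      rw [Gs_eq]
      exact sq_q 1 0 ((j ^ 2 : ℕ) : ℤ) one_ne_zero (disc_h (j ^ 2) (hj1 j hj)) p hp (by
        have := hjT j hj
        omega) Z L) (by
      rw [Nat.card_Icc, Nat.add_sub_cancel]
      exact hJB) hVG0 (by
      rw [sum_const, nsmul_eq_mul, mul_one, Nat.card_Icc, Nat.add_sub_cancel]
      have q1 : 2 / cz ≤ Real.log X := by linarith
      have q2 : (J : ℝ) ≤ Real.log X ^ 2 * (J * (cz / Real.log X)) := by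
        have e : Real.log X ^ 2 * (J * (cz / Real.log X)) = J * (Real.log X * cz) := by
          field_simp
        rw [e]
        apply le_mul_of_one_le_right hJpos.le
        rw [div_le_iff₀ hcz] at q1
        linarith
      have q3 : Real.log X ^ 2 ≤ Real.log X ^ B1 := pow_le_pow_right₀ hlX1 (by omega)
      calc (J : ℝ) ≤ Real.log X ^ 2 * (J * (cz / Real.log X)) := q2
        _ ≤ Real.log X ^ B1 * V1G Gs (fun _ => 1) (Icc 1 J) y := mul_le_mul q3 hVG (by positivity) (by positivity))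
  obtain ⟨x, hx⟩ : ∃ x, x = V1G Gs (fun _ => 1) (Icc 1 J) y := ⟨_, rfl⟩
  have hS2e : S2G Gs (fun _ => 1) (Icc 1 J) y = x := by
    rw [hx]
    unfold S2G V1G
    apply sum_congr rfl
    intro h _
    rw [one_pow]
  rw [← hx] at key hVG hVG0 h1
  rw [hS2e] at key
  have hV2 : 2 * V2G Gs (fun _ => 1) (Icc 1 J) eqJ y + x ^ 2 ≤ K * x ^ 2 := by
    have hVo0 := Vo_nonneg y
    have q0 : 0 ≤ c1 * (J * Vo y) := by positivity
    have q1 : (c1 * (J * Vo y)) ^ 2 ≤ x ^ 2 := pow_le_pow_left₀ q0 h1 2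
    have q2 : C1 * (J * Vo y) ^ 2 = C1 / c1 ^ 2 * (c1 * (J * Vo y)) ^ 2 := by
      field_simp
    have q3 : C1 / c1 ^ 2 * (c1 * (J * Vo y)) ^ 2 ≤ C1 / c1 ^ 2 * x ^ 2 :=
      mul_le_mul_of_nonneg_left q1 (by positivity)
    have e : K * x ^ 2 = 2 * (C1 / c1 ^ 2 * x ^ 2) + x ^ 2 := by rw [hK]; ring
    rw [e]
    linarith
  obtain ⟨N, hN⟩ : ∃ N : ℝ, N = ((GoodN Gs (fun _ => 1) (Icc 1 J) X R Z L ζ (κ0 * (x / 8))).card : ℝ) := ⟨_, rfl⟩
  rw [← hN] at key
  have hN0 : 0 ≤ N := by rw [hN]; exact Nat.cast_nonneg _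
  have hNlow : κ0 ^ 2 / (64 * (2 + K)) * min x 1 * L ≤ N := by
    have k1 : (κ0 * (x / 8)) ^ 2 * L ≤ N * (2 * x + K * x ^ 2) := by
      refine key.trans ?_
      apply mul_le_mul_of_nonneg_left _ hN0
      push_cast
      linarith
    have k2 : 0 < 2 * x + K * x ^ 2 := by positivity
    rw [← div_le_iff₀ k2] at k1
    refine le_trans ?_ k1
    have k3 := min_algK x K hVG0 hK0.le
    have e : (κ0 * (x / 8)) ^ 2 * L / (2 * x + K * x ^ 2) =
      κ0 ^ 2 / 64 * L * (x ^ 2 / (2 * x + K * x ^ 2)) := by ring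
    rw [e]
    have e2 : κ0 ^ 2 / (64 * (2 + K)) * min x 1 * (L : ℝ) = κ0 ^ 2 / 64 * L * (min x 1 / (2 + K)) := by
      field_simp
    rw [e2]
    exact mul_le_mul_of_nonneg_left k3 (by positivity)
  have hmin : min cz 1 * min 1 (J / Real.log X) ≤ min x 1 := by
    have a0 : 0 < min cz 1 := lt_min (by positivity) one_pos
    have a1 : min 1 ((J : ℝ) / Real.log X) ≤ J / Real.log X := min_le_right _ _
    have a2 : min 1 ((J : ℝ) / Real.log X) ≤ 1 := min_le_left _ _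
    have a3 : 0 < min 1 ((J : ℝ) / Real.log X) := lt_min one_pos (by positivity)
    apply le_min
    · calc min cz 1 * min 1 (J / Real.log X) ≤ cz * (J / Real.log X) :=
            mul_le_mul (min_le_left _ _) a1 a3.le (by positivity)
        _ = J * (cz / Real.log X) := by ring
        _ ≤ x := hVG
    · calc min cz 1 * min 1 (J / Real.log X) ≤ 1 * 1 :=
            mul_le_mul (min_le_right _ _) a2 a3.le (by norm_num)
        _ = 1 := by norm_num
  have hfin : κ * min 1 (J / Real.log X) * L ≤ N := by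
    refine le_trans ?_ hNlow
    have a3 : 0 < min 1 ((J : ℝ) / Real.log X) := lt_min one_pos (by positivity)
    calc κ * min 1 (J / Real.log X) * L ≤ (κ0 ^ 2 / (64 * (2 + K)) * min cz 1) * min 1 (J / Real.log X) * L := by
          gcongr
      _ = κ0 ^ 2 / (64 * (2 + K)) * (min cz 1 * min 1 (J / Real.log X)) * L := by ring
      _ ≤ κ0 ^ 2 / (64 * (2 + K)) * min x 1 * L := by gcongr
  refine hfin.trans ?_
  rw [hN]
  have hh : (GoodN Gs (fun _ => 1) (Icc 1 J) X R Z L ζ (κ0 * (x / 8))) ⊆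
      (Ioc Z (Z + L)).filter (fun n => 1 ≤ Nss n R J ((X : ℝ) ^ (θ / 5)) ∧
        κ * (J / Real.log X) ≤ Nss n R J ((X : ℝ) ^ (θ / 5))) := by
    intro n hn
    unfold GoodN at hn
    rw [mem_filter] at hn ⊢
    refine ⟨hn.1, ?_⟩
    have q0 := hn.2
    rw [sum_const, nsmul_eq_mul, mul_one] at q0
    have q1 : ((GoodG Gs (Icc 1 J) X R n ζ).card : ℝ) ≤ Nss n R J ((X : ℝ) ^ (θ / 5)) := by
      exact_mod_cast GoodG_leS X R n J ζ _ (Real.rpow_le_rpow_of_exponent_le hX1 (by linarith))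
    have q2 : 0 < κ0 * (x / 8) := by positivity
    have q3 : (0 : ℝ) < Nss n R J ((X : ℝ) ^ (θ / 5)) := by linarith
    refine ⟨by exact_mod_cast q3, ?_⟩
    refine le_trans ?_ (q0.trans q1)
    have q4 := mul_le_mul_of_nonneg_left hVG hκ0.le
    calc κ * (J / Real.log X) ≤ κ0 * cz / 8 * (J / Real.log X) :=
          mul_le_mul_of_nonneg_right hκ1 (by positivity)
      _ = κ0 * (J * (cz / Real.log X)) / 8 := by
          field_simp
      _ ≤ κ0 * x / 8 := by linarith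
      _ = κ0 * (x / 8) := by ring
  exact_mod_cast card_le_card hh

end Pool.Agent.L0h43.SQ
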