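import Pool.Agent.Y669.Mer

set_option autoImplicit false

/-!
# The primes `1` modulo `4`: Mertens
-/

namespace Pool.Agent.L0h43.SQ

open Finset Filter

/-- Mertens' theorem for the primes `1` modulo `4` -/
theorem mertens4 :
    ∃ C : ℝ, 0 ≤ C ∧ ∀ x : ℕ, 3 ≤ x →
      |∑ p ∈ (Icc 1 x).filter (fun p => p.Prime ∧ p % 4 = 1), (1 : ℝ) / p -
        1 / 2 * Real.log (Real.log x)| ≤ C := by
  obtain ⟨x0, hx0⟩ := Pool.Agent.H387R2.Uni.siegel
  have hlogx : Tendsto (fun x : ℕ => Real.log (x:ℝ)) atTop atTop :=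
    Real.tendsto_log_atTop.comp tendsto_natCast_atTop_atTop
  obtain ⟨x1, hx1⟩ := eventually_atTop.1 (hlogx.eventually_ge_atTop ((4 : ℕ) : ℝ))
  refine Pool.Agent.Y669.mer_of (fun p : ℕ => p % 4 = 1) (1 / 2) 1 one_pos
    (max x0 x1) fun x hx => ?_
  have hxx0 : x0 ≤ x := (le_max_left _ _).trans hx
  have hxx1 : x1 ≤ x := (le_max_right _ _).trans hx
  have hqx : ((4 : ℕ) : ℝ) ≤ Real.log x ^ 2 := by
    have h1 := hx1 x hxx1
    push_cast at h1 ⊢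
    nlinarith
  have h3 := hx0 x hxx0 4 (by norm_num) hqx 1 (by norm_num) (by norm_num)
  have h4 : (((Icc 1 x).filter (fun p => p.Prime ∧ p % 4 = 1)).card : ℝ) = H343E.piAP x 4 1 := by
    unfold H343E.piAP
    congr 2
  have h5 : ((Nat.totient 4 : ℕ) : ℝ) = 2 := by
    have : Nat.totient 4 = 2 := by decide
    rw [this]
    norm_num
  rw [h5] at h3
  rw [h4, one_mul, one_div_mul_eq_div]
  exact h3

/-- a lower bound for the factors -/
lemma fac_low (x : ℝ) (h0 : 0 ≤ x) (h1 : x ≤ 1 / 2) : Real.exp (-x - 2 * x ^ 2) ≤ 1 - x := by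
  have h2 : 0 < 1 - x := by linarith
  rw [← Real.exp_log h2]
  apply Real.exp_le_exp.2
  have h3 := Real.one_sub_inv_le_log_of_pos h2
  refine le_trans ?_ h3
  have h4 : 1 - (1 - x)⁻¹ = -x / (1 - x) := by
    field_simp
    ring
  rw [h4, le_div_iff₀ h2]
  nlinarith [mul_nonneg h0 h0, mul_nonneg (mul_nonneg h0 h0) (by linarith : (0 : ℝ) ≤ 1 / 2 - x)]

/-- the product over the primes `1` modulo `4` -/
theorem prod4_low : ∃ c : ℝ, 0 < c ∧ ∀ y : ℕ, 3 ≤ y →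
    c / Real.log y ≤ ∏ p ∈ (Icc 1 y).filter (fun p => p.Prime ∧ p % 4 = 1), (1 - 2 / (p : ℝ)) := by
  obtain ⟨C, hC, hM⟩ := mertens4
  have hs : Summable (fun n : ℕ => 1 / (n : ℝ) ^ 2) := Real.summable_one_div_nat_pow.2 (by norm_num)
  obtain ⟨S, hS⟩ : ∃ S, S = ∑' n : ℕ, 1 / (n : ℝ) ^ 2 := ⟨_, rfl⟩
  refine ⟨Real.exp (-(2 * C + 8 * S)), Real.exp_pos _, ?_⟩
  intro y hy
  obtain ⟨P, hP⟩ : ∃ P, P = (Icc 1 y).filter (fun p => p.Prime ∧ p % 4 = 1) := ⟨_, rfl⟩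
  have h1 := hM y hy
  rw [← hP] at h1 ⊢
  have hy3 : (3 : ℝ) ≤ y := by exact_mod_cast hy
  have hly : 0 < Real.log y := Real.log_pos (by linarith)
  have h5 : ∀ p ∈ P, (5 : ℝ) ≤ p := by
    intro p hp
    rw [hP, mem_filter] at hp
    have h6 := hp.2.1.two_le
    have : 5 ≤ p := by
      have := hp.2.2
      omega
    exact_mod_cast this
  have h7 : ∏ p ∈ P, Real.exp (-(2 / (p : ℝ)) - 2 * (2 / (p : ℝ)) ^ 2) ≤ ∏ p ∈ P, (1 - 2 / (p : ℝ)) := by
    apply prod_le_prod (fun p _ => (Real.exp_pos _).le)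
    intro p hp
    have h8 := h5 p hp
    apply fac_low _ (by positivity)
    rw [div_le_iff₀ (by linarith)]
    linarith
  refine le_trans ?_ h7
  rw [← Real.exp_sum]
  have h9 : ∑ p ∈ P, 1 / (p : ℝ) ^ 2 ≤ S := by
    rw [hS]
    exact hs.sum_le_tsum _ (fun n _ => by positivity)
  have h10 : ∑ p ∈ P, (-(2 / (p : ℝ)) - 2 * (2 / (p : ℝ)) ^ 2) =
      -2 * ∑ p ∈ P, (1 : ℝ) / p - 8 * ∑ p ∈ P, 1 / (p : ℝ) ^ 2 := by
    rw [mul_sum, mul_sum, ← sum_sub_distrib]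
    apply sum_congr rfl
    intro p _
    ring
  rw [h10]
  have h11 := (abs_le.1 h1).2
  calc Real.exp (-(2 * C + 8 * S)) / Real.log y = Real.exp (-(2 * C + 8 * S) - Real.log (Real.log y)) := by
        rw [Real.exp_sub, Real.exp_log hly]
    _ ≤ _ := by
        apply Real.exp_le_exp.2
        linarith

end Pool.Agent.L0h43.SQ
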