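import Pool.Agent.L0h43.SQ.Loc
import Pool.Agent.L0h43.SQ.Mer4

set_option autoImplicit false

/-!
# The forms `n² + j²`: the products
-/

namespace Pool.Agent.L0h43.SQ

open Finset Filter
open Pool.Agent.W123.RP Pool.Agent.H373R2.T7
open Pool.Agent.L0h41.LW Pool.Agent.L0h41.QN

/-- the product for `n² + 1` -/
noncomputable def Vo (y : ℕ) : ℝ := Vq (DQ (Gs 1)) y

lemma facq_nonneg (Q : ℕ → ℕ → Prop) (p : ℕ) (hp : p.Prime) : 0 ≤ 1 - (nuB Q p : ℝ) / p := by
  classical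
  have hp0 : (0 : ℝ) < p := by exact_mod_cast hp.pos
  have h1 : (nuB Q p : ℝ) ≤ p := by
    have h2 : nuB Q p ≤ p := by
      unfold nuB
      exact (card_filter_le _ _).trans (card_range p).le
    exact_mod_cast h2
  have h2 : (nuB Q p : ℝ) / p ≤ 1 := by
    rw [div_le_one hp0]
    exact h1
  linarith

lemma fac_nonneg (p : ℕ) (hp : p.Prime) : 0 ≤ 1 - (nuB (DQ (Gs 1)) p : ℝ) / p := by
  have hp0 : (0 : ℝ) < p := by exact_mod_cast hp.pos
  have h1 : (nuB (DQ (Gs 1)) p : ℝ) ≤ p := by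
    have h2 := rho_le_two p hp
    have h3 := hp.two_le
    exact_mod_cast h2.trans h3
  have h2 : (nuB (DQ (Gs 1)) p : ℝ) / p ≤ 1 := by
    rw [div_le_one hp0]
    exact h1
  linarith

lemma fac_le_one (p : ℕ) : 1 - (nuB (DQ (Gs 1)) p : ℝ) / p ≤ 1 := by
  have : 0 ≤ (nuB (DQ (Gs 1)) p : ℝ) / p := by positivity
  linarith

lemma Vo_nonneg (y : ℕ) : 0 ≤ Vo y := by
  unfold Vo Vq
  exact prod_nonneg (fun p hp => fac_nonneg p (mem_pz.1 hp).2)

/-- the density is `≫ 1/log y` -/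
theorem Vo_low : ∃ c : ℝ, 0 < c ∧ ∀ y : ℕ, 3 ≤ y → c / Real.log y ≤ Vo y := by
  obtain ⟨c, hc, hy⟩ := prod4_low
  refine ⟨c / 2, by positivity, ?_⟩
  intro y h3
  have h1 := hy y h3
  have hy3 : (3 : ℝ) ≤ y := by exact_mod_cast h3
  have hly : 0 < Real.log y := Real.log_pos (by linarith)
  have h2 : (1 / 2 : ℝ) * ∏ p ∈ (Icc 1 y).filter (fun p => p.Prime ∧ p % 4 = 1), (1 - 2 / (p : ℝ)) ≤ Vo y := by
    unfold Vo Vq
    have e1 : (Icc 1 y).filter (fun p => p.Prime ∧ p % 4 = 1) = (pz y).filter (fun p => p % 4 = 1) := by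
      unfold pz
      rw [filter_filter]
    have e2 : (1 / 2 : ℝ) * ∏ p ∈ (Icc 1 y).filter (fun p => p.Prime ∧ p % 4 = 1), (1 - 2 / (p : ℝ)) =
        ∏ p ∈ pz y, (if p = 2 then (1 / 2 : ℝ) else 1) * (if p % 4 = 1 then (1 - 2 / (p : ℝ)) else 1) := by
      rw [prod_mul_distrib, e1, prod_filter, prod_ite_eq']
      rw [if_pos (mem_pz.2 ⟨by omega, Nat.prime_two⟩)]
    rw [e2]
    apply Finset.prod_le_prod
    · intro p hp
      have hpp := (mem_pz.1 hp).2
      have hp2 : (2 : ℝ) ≤ p := by exact_mod_cast hpp.two_le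
      have h5 : 2 / (p : ℝ) ≤ 1 := by
        rw [div_le_one (by linarith)]
        exact hp2
      apply mul_nonneg
      · split_ifs <;> norm_num
      · split_ifs
        · linarith
        · norm_num
    · intro p hp
      have hpp := (mem_pz.1 hp).2
      have hp2 : (2 : ℝ) ≤ p := by exact_mod_cast hpp.two_le
      have hp0 : (0 : ℝ) < p := by linarith
      by_cases h : p = 2
      · have h6 := rho_two
        rw [h, if_pos rfl, if_neg (by norm_num)]
        have h7 : (nuB (DQ (Gs 1)) 2 : ℝ) ≤ 1 := by exact_mod_cast h6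
        push_cast
        linarith
      · rw [if_neg h, one_mul]
        have hodd : p % 2 = 1 := hpp.eq_two_or_odd.resolve_left h
        by_cases h4 : p % 4 = 1
        · rw [if_pos h4]
          have h6 : (nuB (DQ (Gs 1)) p : ℝ) ≤ 2 := by exact_mod_cast rho_le_two p hpp
          have h7 : (nuB (DQ (Gs 1)) p : ℝ) / p ≤ 2 / p := div_le_div_of_nonneg_right h6 hp0.le
          linarith
        · rw [if_neg h4, rho_three p hpp (by omega)]
          norm_num
  calc c / 2 / Real.log y = 1 / 2 * (c / Real.log y) := by ring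
    _ ≤ _ := by
        refine le_trans ?_ h2
        exact mul_le_mul_of_nonneg_left h1 (by norm_num)

/-- the lower bound for one form -/
lemma V_low (j y : ℕ) (hj : 1 ≤ j) : Vo y * (tr j)⁻¹ ≤ Vq (DQ (Gs j)) y := by
  have h1 : (tr j)⁻¹ = ∏ p ∈ j.primeFactors, (1 - (p : ℝ)⁻¹) := by
    rw [tr_prod j hj, prod_inv_distrib, inv_inv]
  have hf : ∀ p : ℕ, p.Prime → 0 ≤ 1 - (p : ℝ)⁻¹ ∧ 1 - (p : ℝ)⁻¹ ≤ 1 := by
    intro p hp
    have h2 : (1 : ℝ) ≤ p := by exact_mod_cast hp.one_lt.le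
    have h3 : (p : ℝ)⁻¹ ≤ 1 := inv_le_one_of_one_le₀ h2
    have h4 : 0 ≤ (p : ℝ)⁻¹ := by positivity
    exact ⟨by linarith, by linarith⟩
  have h2 : ∏ p ∈ j.primeFactors, (1 - (p : ℝ)⁻¹) ≤ ∏ p ∈ pz y, (if p ∣ j then (1 - (p : ℝ)⁻¹) else 1) := by
    rw [← prod_filter]
    have hsub : (pz y).filter (fun p => p ∣ j) ⊆ j.primeFactors := by
      intro p hp
      rw [mem_filter, mem_pz] at hp
      exact Nat.mem_primeFactors.2 ⟨hp.1.2, hp.2, by omega⟩
    rw [← prod_sdiff hsub]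
    have h3 : ∏ p ∈ j.primeFactors \ (pz y).filter (fun p => p ∣ j), (1 - (p : ℝ)⁻¹) ≤ 1 := by
      apply prod_le_one
      · intro p hp
        exact (hf p (Nat.prime_of_mem_primeFactors (mem_sdiff.1 hp).1)).1
      · intro p hp
        exact (hf p (Nat.prime_of_mem_primeFactors (mem_sdiff.1 hp).1)).2
    have h4 : 0 ≤ ∏ p ∈ (pz y).filter (fun p => p ∣ j), (1 - (p : ℝ)⁻¹) := by
      apply prod_nonneg
      intro p hp
      exact (hf p (mem_pz.1 (mem_filter.1 hp).1).2).1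
    calc _ ≤ 1 * ∏ p ∈ (pz y).filter (fun p => p ∣ j), (1 - (p : ℝ)⁻¹) := mul_le_mul_of_nonneg_right h3 h4
      _ = _ := one_mul _
  rw [h1]
  refine (mul_le_mul_of_nonneg_left h2 (Vo_nonneg y)).trans ?_
  unfold Vo Vq
  rw [← prod_mul_distrib]
  apply Finset.prod_le_prod
  · intro p hp
    have hpp := (mem_pz.1 hp).2
    apply mul_nonneg (fac_nonneg p hpp)
    split_ifs
    · exact (hf p hpp).1
    · norm_num
  · intro p hp
    have hpp := (mem_pz.1 hp).2
    have hp0 : (0 : ℝ) < p := by exact_mod_cast hpp.pos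
    by_cases hd : p ∣ j
    · rw [if_pos hd]
      have h5 : (nuB (DQ (Gs j)) p : ℝ) ≤ 1 := by exact_mod_cast nu_dvd p j hpp hd
      have h6 : (nuB (DQ (Gs j)) p : ℝ) / p ≤ (p : ℝ)⁻¹ := by
        rw [← one_div]
        exact div_le_div_of_nonneg_right h5 hp0.le
      calc (1 - (nuB (DQ (Gs 1)) p : ℝ) / p) * (1 - (p : ℝ)⁻¹) ≤ 1 * (1 - (p : ℝ)⁻¹) :=
            mul_le_mul_of_nonneg_right (fac_le_one p) (hf p hpp).1
        _ ≤ _ := by linarith
    · rw [if_neg hd, mul_one, nu_coprime p j hpp hd]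

/-- the upper bound for a pair of forms -/
lemma V_pair (j j' y : ℕ) (hj : 1 ≤ j) (hj' : 1 ≤ j') (hne : j ≠ j') :
    Vq (QPP (Gs j) (Gs j')) y ≤ Vo y ^ 2 * (tr j * tr j' * (tr ((j - j') + (j' - j)) * tr (j + j'))) ^ 6 := by
  obtain ⟨m, hm⟩ : ∃ m, m = j * j' * (((j - j') + (j' - j)) * (j + j')) := ⟨_, rfl⟩
  have hd1 : 1 ≤ (j - j') + (j' - j) := by omega
  have hs1 : 1 ≤ j + j' := by omega
  have hm1 : 1 ≤ m := by
    rw [hm]
    exact Nat.one_le_iff_ne_zero.2 (by positivity)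
  have htr : tr m ≤ tr j * tr j' * (tr ((j - j') + (j' - j)) * tr (j + j')) := by
    rw [hm]
    refine (tr_mul _ _ (Nat.mul_pos hj hj') (Nat.mul_pos hd1 hs1)).trans ?_
    exact mul_le_mul (tr_mul _ _ hj hj') (tr_mul _ _ hd1 hs1) (tr_nonneg _) (mul_nonneg (tr_nonneg _) (tr_nonneg _))
  refine le_trans ?_ (mul_le_mul_of_nonneg_left (pow_le_pow_left₀ (tr_nonneg m) htr 6) (by positivity))
  have hf : ∀ p : ℕ, p.Prime → 1 ≤ ((1 : ℝ) - (p : ℝ)⁻¹)⁻¹ := by
    intro p hp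
    have h2 : (2 : ℝ) ≤ p := by exact_mod_cast hp.two_le
    have h3 : (p : ℝ)⁻¹ ≤ 1 / 2 := by
      rw [inv_le_comm₀ (by linarith) (by norm_num)]
      norm_num
      exact_mod_cast h2
    have h4 : 0 ≤ (p : ℝ)⁻¹ := by positivity
    exact (one_le_inv₀ (by linarith)).2 (by linarith)
  have h2 : ∏ p ∈ pz y, (if p ∣ m then (((1 : ℝ) - (p : ℝ)⁻¹)⁻¹) ^ 6 else 1) ≤ tr m ^ 6 := by
    rw [tr_prod m hm1, ← prod_pow, ← prod_filter]
    have hsub : (pz y).filter (fun p => p ∣ m) ⊆ m.primeFactors := by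
      intro p hp
      rw [mem_filter, mem_pz] at hp
      exact Nat.mem_primeFactors.2 ⟨hp.1.2, hp.2, by omega⟩
    rw [← prod_sdiff hsub]
    have h3 : 1 ≤ ∏ p ∈ m.primeFactors \ (pz y).filter (fun p => p ∣ m), (((1 : ℝ) - (p : ℝ)⁻¹)⁻¹) ^ 6 := by
      have h4 : ∏ p ∈ m.primeFactors \ (pz y).filter (fun p => p ∣ m), (1 : ℝ) ≤
          ∏ p ∈ m.primeFactors \ (pz y).filter (fun p => p ∣ m), (((1 : ℝ) - (p : ℝ)⁻¹)⁻¹) ^ 6 := by
        apply Finset.prod_le_prod (fun _ _ => zero_le_one)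
        intro p hp
        exact one_le_pow₀ (hf p (Nat.prime_of_mem_primeFactors (mem_sdiff.1 hp).1))
      rwa [prod_const_one] at h4
    have h4 : 0 ≤ ∏ p ∈ (pz y).filter (fun p => p ∣ m), (((1 : ℝ) - (p : ℝ)⁻¹)⁻¹) ^ 6 := by
      apply prod_nonneg
      intro p hp
      have := hf p (mem_pz.1 (mem_filter.1 hp).1).2
      positivity
    exact le_mul_of_one_le_left h4 h3
  refine le_trans ?_ (mul_le_mul_of_nonneg_left h2 (by positivity))
  unfold Vo Vq
  rw [← prod_pow, ← prod_mul_distrib]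
  apply Finset.prod_le_prod
  · intro p hp
    exact facq_nonneg _ p (mem_pz.1 hp).2
  · intro p hp
    have hpp := (mem_pz.1 hp).2
    have hp0 : (0 : ℝ) < p := by exact_mod_cast hpp.pos
    have hp2 : (2 : ℝ) ≤ p := by exact_mod_cast hpp.two_le
    obtain ⟨ρ, hρ⟩ : ∃ ρ : ℝ, ρ = (nuB (DQ (Gs 1)) p : ℝ) := ⟨_, rfl⟩
    rw [← hρ]
    have hρ0 : 0 ≤ ρ := by rw [hρ]; positivity
    by_cases hd : p ∣ m
    · rw [if_pos hd]
      have hl : 1 - (nuB (QPP (Gs j) (Gs j')) p : ℝ) / p ≤ 1 := by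
        have : 0 ≤ (nuB (QPP (Gs j) (Gs j')) p : ℝ) / p := by positivity
        linarith
      refine hl.trans ?_
      obtain ⟨t, ht⟩ : ∃ t : ℝ, t = (p : ℝ)⁻¹ := ⟨_, rfl⟩
      have ht0 : 0 < t := by rw [ht]; positivity
      have ht2 : t ≤ 1 / 2 := by
        rw [ht, inv_le_comm₀ hp0 (by norm_num)]
        norm_num
        exact_mod_cast hpp.two_le
      have e : ρ / (p : ℝ) = ρ * t := by rw [ht]; ring
      rw [e, ← ht]
      have h3 : (1 - t) ^ 3 ≤ 1 - ρ * t := by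
        by_cases h2 : p = 2
        · have h4 : ρ ≤ 1 := by
            rw [hρ, h2]
            exact_mod_cast rho_two
          have h5 : t = 1 / 2 := by rw [ht, h2]; norm_num
          rw [h5]
          linarith
        · have h4 : ρ ≤ 2 := by
            rw [hρ]
            exact_mod_cast rho_le_two p hpp
          have h5 : t ≤ 1 / 3 := by
            have h6 : 3 ≤ p := by
              have := hpp.two_le
              omega
            rw [ht, inv_le_comm₀ hp0 (by norm_num)]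
            norm_num
            exact_mod_cast h6
          have h7 : ρ * t ≤ 2 * t := mul_le_mul_of_nonneg_right h4 ht0.le
          have h8 : 0 ≤ t * (1 - 3 * t + t ^ 2) := by
            apply mul_nonneg ht0.le
            nlinarith [sq_nonneg t]
          nlinarith
      have h1t : 0 < 1 - t := by linarith
      have h4 : ((1 - t) ^ 3) ^ 2 ≤ (1 - ρ * t) ^ 2 := pow_le_pow_left₀ (by positivity) h3 2
      have h5 : (0 : ℝ) < ((1 - t)⁻¹) ^ 6 := by positivity
      calc (1 : ℝ) = ((1 - t) ^ 3) ^ 2 * ((1 - t)⁻¹) ^ 6 := by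
            rw [← pow_mul, ← mul_pow, mul_inv_cancel₀ h1t.ne', one_pow]
        _ ≤ (1 - ρ * t) ^ 2 * ((1 - t)⁻¹) ^ 6 := mul_le_mul_of_nonneg_right h4 h5.le
    · rw [if_neg hd, mul_one]
      have h5 : ¬ p ∣ j := fun h => hd (by rw [hm]; exact (h.mul_right _).mul_right _)
      have h6 : ¬ p ∣ j' := fun h => hd (by rw [hm]; exact (h.mul_left _).mul_right _)
      have h7 : ¬ (p : ℤ) ∣ (j : ℤ) ^ 2 - (j' : ℤ) ^ 2 := by
        intro h
        have e : (j : ℤ) ^ 2 - (j' : ℤ) ^ 2 = ((j : ℤ) - j') * (j + j') := by ring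
        rw [e] at h
        apply hd
        rw [hm]
        apply Dvd.dvd.mul_left
        rcases (Nat.prime_iff_prime_int.1 hpp).dvd_or_dvd h with h8 | h8
        · apply Dvd.dvd.mul_right
          rcases lt_or_gt_of_ne hne with h9 | h9
          · have e2 : ((j - j') + (j' - j) : ℕ) = j' - j := by omega
            rw [e2, ← Int.natCast_dvd_natCast, Nat.cast_sub h9.le]
            have := (dvd_neg (a := (p : ℤ))).2 h8
            rwa [neg_sub] at this
          · have e2 : ((j - j') + (j' - j) : ℕ) = j - j' := by omega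
            rw [e2, ← Int.natCast_dvd_natCast, Nat.cast_sub h9.le]
            exact h8
        · apply Dvd.dvd.mul_left
          exact_mod_cast h8
      have h8 : 2 * ρ ≤ (nuB (QPP (Gs j) (Gs j')) p : ℝ) := by
        rw [hρ]
        exact_mod_cast nu_pair p j j' hpp h5 h6 h7
      have h9 : 2 * ρ / p ≤ (nuB (QPP (Gs j) (Gs j')) p : ℝ) / p := div_le_div_of_nonneg_right h8 hp0.le
      have e : (1 - ρ / p) ^ 2 = 1 - 2 * ρ / p + (ρ / p) ^ 2 := by ring
      rw [e]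
      have := sq_nonneg (ρ / (p : ℝ))
      linarith

end Pool.Agent.L0h43.SQ
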